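import Mathlib

/-!
A polynomial `p` on `ℝ ^ n` for which `1 / |p|` is integrable does not change its sign.
-/

set_option autoImplicit false

open MeasureTheory Set Filter Topology

namespace Pool.Agent.PCB

/-- restriction of a polynomial to a line -/
theorem line_poly {n : ℕ} (p : MvPolynomial (Fin n) ℝ) (a d : Fin n → ℝ) :
    ∃ q : Polynomial ℝ, ∀ t : ℝ, q.eval t = MvPolynomial.eval (a + t • d) p := by
  refine ⟨MvPolynomial.eval₂ Polynomial.C
    (fun i => Polynomial.C (a i) + Polynomial.X * Polynomial.C (d i)) p, ?_⟩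
  intro t
  induction p using MvPolynomial.induction_on with
  | C c => simp
  | add p q hp hq =>
    rw [MvPolynomial.eval₂_add, Polynomial.eval_add, hp, hq, map_add]
  | mul_X p i hp =>
    rw [MvPolynomial.eval₂_mul, Polynomial.eval_mul, hp, map_mul, MvPolynomial.eval₂_X,
      MvPolynomial.eval_X]
    have h1 : Polynomial.eval t (Polynomial.C (a i) + Polynomial.X * Polynomial.C (d i)) =
        (a + t • d) i := by
      rw [Polynomial.eval_add, Polynomial.eval_mul, Polynomial.eval_C, Polynomial.eval_X,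
        Polynomial.eval_C, Pi.add_apply, Pi.smul_apply, smul_eq_mul]
    rw [h1]

/-- divergence of the integral of `1 / |q|` along `[0, 1]` -/
theorem line_div (q : Polynomial ℝ) (h0 : 0 < q.eval 0) (h1 : q.eval 1 < 0) :
    ∫⁻ t in Ioc (0 : ℝ) 1, ENNReal.ofReal (1 / |q.eval t|) = ⊤ := by
  have hq : q ≠ 0 := by
    rintro rfl
    simp at h0
  obtain ⟨t0, ht0, hz⟩ : ∃ t ∈ Icc (0 : ℝ) 1, q.eval t = 0 := by
    have hc : ContinuousOn (fun t : ℝ => q.eval t) (Icc 0 1) := q.continuous.continuousOn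
    have h2 := intermediate_value_Icc' (zero_le_one (α := ℝ)) hc
    exact h2 ⟨h1.le, h0.le⟩
  have hfin : {t : ℝ | q.eval t = 0}.Finite := by
    refine (q.roots.toFinset.finite_toSet).subset ?_
    intro t ht
    simp only [Finset.mem_coe, Multiset.mem_toFinset]
    exact (Polynomial.mem_roots hq).2 ht
  have hev : ∀ᶠ t in 𝓝[≠] t0, q.eval t ≠ 0 := by
    have h2 : {t : ℝ | q.eval t = 0} \ {t0} ⊆ {t : ℝ | q.eval t = 0} := Set.sdiff_subset
    have h3 : IsClosed ({t : ℝ | q.eval t = 0} \ {t0}) := (hfin.subset h2).isClosed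
    have h4 : ({t : ℝ | q.eval t = 0} \ {t0})ᶜ ∈ 𝓝 t0 := by
      apply h3.isOpen_compl.mem_nhds
      simp
    have h5 : ({t : ℝ | q.eval t = 0} \ {t0})ᶜ ∈ 𝓝[≠] t0 := mem_nhdsWithin_of_mem_nhds h4
    filter_upwards [h5, self_mem_nhdsWithin] with t ht ht'
    intro h6
    exact ht ⟨h6, ht'⟩
  have hO : (fun t : ℝ => (t - t0)⁻¹) =O[𝓝[≠] t0] fun t => (q.eval t)⁻¹ := by
    apply Asymptotics.IsBigO.inv_rev
    · have h2 : DifferentiableAt ℝ (fun t : ℝ => q.eval t) t0 := q.differentiable.differentiableAt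
      have h3 := h2.isBigO_sub
      have h4 : (fun t : ℝ => q.eval t) =O[𝓝 t0] fun t => t - t0 := by
        simpa [hz] using h3
      exact h4.mono nhdsWithin_le_nhds
    · filter_upwards [hev] with t ht h2
      exact absurd h2 ht
  have hni : ¬ IntervalIntegrable (fun t : ℝ => (q.eval t)⁻¹) volume 0 1 := by
    apply not_intervalIntegrable_of_sub_inv_isBigO_punctured hO zero_ne_one
    rw [uIcc_of_le zero_le_one]
    exact ht0
  by_contra hcon
  apply hni
  rw [intervalIntegrable_iff_integrableOn_Ioc_of_le zero_le_one]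
  have hm : Measurable fun t : ℝ => (q.eval t)⁻¹ := q.continuous.measurable.inv
  refine ⟨hm.aestronglyMeasurable, ?_⟩
  rw [hasFiniteIntegral_iff_enorm]
  have h2 : ∀ t : ℝ, ‖(q.eval t)⁻¹‖ₑ = ENNReal.ofReal (1 / |q.eval t|) := by
    intro t
    rw [← ofReal_norm, Real.norm_eq_abs, abs_inv, one_div]
  simp only [h2]
  exact lt_top_iff_ne_top.2 hcon

theorem sgn {n : ℕ} (p : MvPolynomial (Fin n) ℝ)
    (h : ∫⁻ x : Fin n → ℝ, ENNReal.ofReal (1 / |MvPolynomial.eval x p|) < ⊤) :
    (∀ x, 0 ≤ MvPolynomial.eval x p) ∨ (∀ x, MvPolynomial.eval x p ≤ 0) := by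
  by_contra hcon
  push Not at hcon
  obtain ⟨⟨b, hb⟩, a, ha⟩ := hcon
  have hcont : Continuous fun x : Fin n → ℝ => MvPolynomial.eval x p :=
    MvPolynomial.continuous_eval p
  obtain ⟨δ, hδ, hball⟩ : ∃ δ : ℝ, 0 < δ ∧ ∀ z ∈ Metric.ball (0 : Fin n → ℝ) δ,
      0 < MvPolynomial.eval (a + z) p ∧ MvPolynomial.eval (b + z) p < 0 := by
    have h1 : ∀ᶠ z in 𝓝 (0 : Fin n → ℝ), 0 < MvPolynomial.eval (a + z) p := by
      have h2 : ContinuousAt (fun z : Fin n → ℝ => MvPolynomial.eval (a + z) p) 0 :=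
        (hcont.comp (continuous_const.add continuous_id)).continuousAt
      apply h2.eventually_const_lt
      simpa using ha
    have h2 : ∀ᶠ z in 𝓝 (0 : Fin n → ℝ), MvPolynomial.eval (b + z) p < 0 := by
      have h2 : ContinuousAt (fun z : Fin n → ℝ => MvPolynomial.eval (b + z) p) 0 :=
        (hcont.comp (continuous_const.add continuous_id)).continuousAt
      apply h2.eventually_lt_const
      simpa using hb
    obtain ⟨δ, hδ, h3⟩ := Metric.eventually_nhds_iff_ball.1 (h1.and h2)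
    exact ⟨δ, hδ, h3⟩
  obtain ⟨F, hF⟩ : ∃ F : (Fin n → ℝ) → ENNReal,
      F = fun x => ENNReal.ofReal (1 / |MvPolynomial.eval x p|) := ⟨_, rfl⟩
  have hFm : Measurable F := by
    rw [hF]
    exact ENNReal.measurable_ofReal.comp (by
      simp only [one_div]
      exact (hcont.abs.measurable).inv)
  have hI : ∫⁻ x, F x < ⊤ := by
    rw [hF]
    exact h
  have hinner : ∀ z ∈ Metric.ball (0 : Fin n → ℝ) δ,
      ∫⁻ t in Ioc (0 : ℝ) 1, F (z + (a + t • (b - a))) = ⊤ := by
    intro z hz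
    obtain ⟨h1, h2⟩ := hball z hz
    obtain ⟨q, hq⟩ := line_poly p (a + z) (b - a)
    have h3 := line_div q (by rw [hq]; simpa using h1) (by
      rw [hq]
      have h4 : a + z + (1 : ℝ) • (b - a) = b + z := by
        rw [one_smul]
        abel
      rw [h4]
      exact h2)
    rw [← h3]
    apply lintegral_congr
    intro t
    rw [hq, hF]
    have h4 : z + (a + t • (b - a)) = a + z + t • (b - a) := by
      abel
    rw [h4]
  have hswap : ∫⁻ z in Metric.ball (0 : Fin n → ℝ) δ,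
      ∫⁻ t in Ioc (0 : ℝ) 1, F (z + (a + t • (b - a))) =
      ∫⁻ t in Ioc (0 : ℝ) 1, ∫⁻ z in Metric.ball (0 : Fin n → ℝ) δ,
        F (z + (a + t • (b - a))) := by
    apply lintegral_lintegral_swap
    apply Measurable.aemeasurable
    apply hFm.comp
    apply Continuous.measurable
    fun_prop
  have hle : ∫⁻ t in Ioc (0 : ℝ) 1, ∫⁻ z in Metric.ball (0 : Fin n → ℝ) δ,
        F (z + (a + t • (b - a))) ≤ ∫⁻ x, F x := by
    calc ∫⁻ t in Ioc (0 : ℝ) 1, ∫⁻ z in Metric.ball (0 : Fin n → ℝ) δ,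
          F (z + (a + t • (b - a)))
        ≤ ∫⁻ _t in Ioc (0 : ℝ) 1, ∫⁻ x, F x := by
          apply lintegral_mono
          intro t
          show ∫⁻ z in Metric.ball (0 : Fin n → ℝ) δ, F (z + (a + t • (b - a))) ≤ ∫⁻ x, F x
          calc ∫⁻ z in Metric.ball (0 : Fin n → ℝ) δ, F (z + (a + t • (b - a)))
              ≤ ∫⁻ z, F (z + (a + t • (b - a))) := setLIntegral_le_lintegral _ _
            _ = ∫⁻ x, F x := lintegral_add_right_eq_self F (a + t • (b - a))
      _ = ∫⁻ x, F x := by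
          rw [setLIntegral_const, Real.volume_Ioc]
          simp
  have htop : ∫⁻ z in Metric.ball (0 : Fin n → ℝ) δ,
      ∫⁻ t in Ioc (0 : ℝ) 1, F (z + (a + t • (b - a))) = ⊤ := by
    rw [setLIntegral_congr_fun Metric.isOpen_ball.measurableSet hinner, setLIntegral_const]
    apply ENNReal.top_mul
    exact (Metric.measure_ball_pos volume (0 : Fin n → ℝ) hδ).ne'
  rw [hswap] at htop
  rw [htop] at hle
  exact absurd hI (not_lt_of_ge hle)

end Pool.Agent.PCB
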