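import Pool.Agent.PCB.Vol
import Pool.Agent.PCB.Sgn
import Pool.Agent.PWD.Text
import Pool.Agent.PWD.FinT
import Pool.Agent.PWD.VSF

/-!
# The volumes of the sets `S_A` and the periods
-/

set_option autoImplicit false

open MeasureTheory MvPolynomial

namespace Pool.Agent.PCB

open Pool.Agent.PWD

/-- `v` is a finite volume of a set `S_A`, `A` a trinomial matrix in `n ≥ 1` variables, `det A ≠ 0` -/
def Sv (v : ℝ) : Prop :=
  ∃ (n k : ℕ) (A : Matrix (Fin k) (Fin k) (MvPolynomial (Fin n) ℤ)), 1 ≤ n ∧ Trin A ∧ A.det ≠ 0 ∧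
    volume (body A) ≠ ⊤ ∧ v = (volume (body A)).toReal

theorem aeval_rat {n : ℕ} (x : Fin n → ℝ) (p : MvPolynomial (Fin n) ℤ) :
    aeval x (map (Int.castRingHom ℚ) p) = aeval x p := by
  rw [aeval_eq, aeval_def, eval₂_map, eval_map]
  congr 1

/-- finite volumes of the sets `S_A` are integrals of positive rational functions -/
theorem sv_wp (v : ℝ) (h : Sv v) : ∃ n, 1 ≤ n ∧ T.Wp n v := by
  obtain ⟨n, k, A, hn, -, hA, hfin, rfl⟩ := h
  refine ⟨n, hn, ?_⟩
  rw [vol_body A hA] at hfin ⊢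
  have h2 : (0 : ℝ) < 2 ^ k := by positivity
  have hs : ∫⁻ x : Fin n → ℝ, ENNReal.ofReal (1 / |eval x (map (Int.castRingHom ℝ) A.det)|) < ⊤ := by
    refine lt_of_le_of_lt (lintegral_mono fun x => ?_) (lt_top_iff_ne_top.2 hfin)
    rw [← aeval_eq]
    refine ENNReal.ofReal_le_ofReal ?_
    refine div_le_div_of_nonneg_right ?_ (abs_nonneg _)
    exact one_le_pow₀ (by norm_num)
  have hQ : map (Int.castRingHom ℚ) A.det ≠ 0 :=
    (map_ne_zero_iff _ (map_injective _ Int.cast_injective)).2 hA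
  have hmeas : AEStronglyMeasurable (fun x : Fin n → ℝ => (2 : ℝ) ^ k / |aeval x A.det|) volume :=
    (measurable_const.div (cont_aeval _).abs.measurable).aestronglyMeasurable
  have hint : Integrable (fun x : Fin n → ℝ => (2 : ℝ) ^ k / |aeval x A.det|) := by
    refine ⟨hmeas, ?_⟩
    rw [hasFiniteIntegral_iff_ofReal (Filter.Eventually.of_forall fun x => by positivity)]
    exact lt_top_iff_ne_top.2 hfin
  have hval : (∫⁻ x : Fin n → ℝ, ENNReal.ofReal (2 ^ k / |aeval x A.det|)).toReal =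
      ∫ x : Fin n → ℝ, (2 : ℝ) ^ k / |aeval x A.det| :=
    (integral_eq_lintegral_of_nonneg_ae (Filter.Eventually.of_forall fun x => by positivity)
      hmeas).symm
  rw [hval]
  have key : ∀ s : ℤ, (s = 1 ∨ s = -1) → (∀ x : Fin n → ℝ, |aeval x A.det| = s * aeval x A.det) →
      T.Wp n (∫ x : Fin n → ℝ, (2 : ℝ) ^ k / |aeval x A.det|) := by
    intro s hs1 hx
    have hs2 : (s : ℝ) * s = 1 := by rcases hs1 with rfl | rfl <;> norm_num
    have hrat : ∀ x : Fin n → ℝ, T.rat (C ((s : ℚ) * 2 ^ k)) (map (Int.castRingHom ℚ) A.det) x =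
        2 ^ k / |aeval x A.det| := by
      intro x
      unfold T.rat
      rw [aeval_rat, aeval_C, hx]
      simp only [eq_ratCast]
      push_cast
      rcases eq_or_ne (aeval x A.det) 0 with h0 | h0
      · rw [h0]
        simp
      · rw [div_eq_div_iff h0 (mul_ne_zero (fun h => by rw [h] at hs2; norm_num at hs2) h0)]
        linear_combination (2 ^ k * aeval x A.det) * hs2
    refine ⟨C ((s : ℚ) * 2 ^ k), map (Int.castRingHom ℚ) A.det, ⟨hQ, fun x h0 => ?_⟩, ?_, ?_⟩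
    · rw [hrat]
      rw [aeval_rat] at h0
      positivity
    · exact hint.congr (Filter.Eventually.of_forall fun x => (hrat x).symm)
    · exact integral_congr_ae (Filter.Eventually.of_forall fun x => hrat x)
  rcases sgn _ hs with h | h
  · refine key 1 (Or.inl rfl) fun x => ?_
    have := h x
    rw [← aeval_eq] at this
    rw [abs_of_nonneg this]
    simp
  · refine key (-1) (Or.inr rfl) fun x => ?_
    have := h x
    rw [← aeval_eq] at this
    rw [abs_of_nonpos this]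
    push_cast
    ring

/-- integrals of `1 / (A² + B²)` are rational multiples of the volumes of the sets `S_A` -/
theorem rs_sv (n : ℕ) (hn : 1 ≤ n) (v : ℝ) (h : T.Rs n v) : ∃ q : ℚ, 0 < q ∧ Sv (q * v) := by
  obtain ⟨A, B, hpos, hint, hv⟩ := h
  obtain ⟨N, p, hN, hp⟩ := clear (A ^ 2 + B ^ 2)
  have hN' : (0 : ℝ) < N := by exact_mod_cast hN
  have hp' : ∀ x : Fin n → ℝ, aeval x p = (N : ℝ) * (aeval x A ^ 2 + aeval x B ^ 2) := by
    intro x
    rw [hp, map_add, map_pow, map_pow]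
  have hppos : ∀ x : Fin n → ℝ, 0 < aeval x p := fun x => by
    rw [hp']
    exact mul_pos hN' (hpos x)
  obtain ⟨k, M, hM, hdet⟩ := tri n p
  have hp0 : p ≠ 0 := by
    rintro rfl
    have := hppos 0
    simp at this
  have e1 : ∀ x : Fin n → ℝ, (2 : ℝ) ^ k / |aeval x M.det| =
      2 ^ k / N * (1 / (aeval x A ^ 2 + aeval x B ^ 2)) := by
    intro x
    have h1 := hpos x
    rw [hdet, abs_of_pos (hppos x), hp']
    field_simp
  have e2 : volume (body M) = ENNReal.ofReal (2 ^ k / N * v) := by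
    rw [vol_body M (by rw [hdet]; exact hp0)]
    simp only [e1]
    rw [← ofReal_integral_eq_lintegral_ofReal (hint.const_mul _)
      (Filter.Eventually.of_forall fun x => by
        have := hpos x
        positivity), integral_const_mul, hv]
  have hv0 : 0 ≤ v := by
    rw [← hv]
    exact integral_nonneg fun x => by
      have := hpos x
      positivity
  refine ⟨2 ^ k / N, by positivity, n, k, M, hn, hM, by rw [hdet]; exact hp0, ?_, ?_⟩
  · rw [e2]
    exact ENNReal.ofReal_ne_top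
  · rw [e2, ENNReal.toReal_ofReal (by positivity)]
    push_cast
    ring

/-- the clauses on the sets `S_A` -/
theorem main_sv :
    (∀ v : ℝ, Sv v → ∃ a : ℝ, 0 < a ∧ T.IsPeriod a ∧ v = Real.pi * a) ∧
    (∀ x : ℝ, 0 < x → T.IsPeriod x → ∃ q : ℚ, 0 < q ∧ Sv (q * (Real.pi ^ 2 * x))) ∧
    (T.IsPeriod (1 / Real.pi) ↔ ∃ q : ℚ, Sv q) ∧
    (T.IsPeriod (1 / Real.pi) ↔ ∃ v : ℝ, Sv v ∧ IsAlgebraic ℚ v) := by
  obtain ⟨-, ⟨r1, -, r3, r4⟩, w, -, ⟨p1, p2, -⟩, -⟩ := fin_T thm_VS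
  have ha : ∀ v : ℝ, Sv v → ∃ a : ℝ, 0 < a ∧ T.IsPeriod a ∧ v = Real.pi * a := by
    intro v hv
    obtain ⟨n, hn, h⟩ := sv_wp v hv
    obtain ⟨a, h1, h2, h3⟩ := ((w n v hn).2.1).1 h
    exact ⟨a, h2, (p2 a h2).2 ⟨n, hn, h1⟩, h3⟩
  have hrat : T.IsPeriod (1 / Real.pi) → ∃ q : ℚ, Sv q := by
    intro h
    obtain ⟨n, hn, h1⟩ := r1.1 h
    obtain ⟨q, -, h2⟩ := rs_sv n hn 1 h1
    exact ⟨q, by rwa [mul_one] at h2⟩
  have halg : (∃ v : ℝ, Sv v ∧ IsAlgebraic ℚ v) → T.IsPeriod (1 / Real.pi) := by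
    rintro ⟨v, hv, h1⟩
    by_contra hc
    obtain ⟨n, hn, h2⟩ := sv_wp v hv
    obtain ⟨h3, h4⟩ := ((w n v hn).2.2).1 h2
    exact r3.1 hc n v hn h3 h4.ne' h1
  have hra : (∃ q : ℚ, Sv q) → ∃ v : ℝ, Sv v ∧ IsAlgebraic ℚ v := by
    rintro ⟨q, hq⟩
    exact ⟨q, hq, isAlgebraic_algebraMap (R := ℚ) (A := ℝ) q⟩
  refine ⟨ha, ?_, ⟨hrat, fun h => halg (hra h)⟩, ⟨fun h => hra (hrat h), halg⟩⟩
  intro x hx h
  obtain ⟨n, hn, h1⟩ := (p2 x hx).1 h
  exact rs_sv (n + 1) (by omega) _ (r4 n x hn h1 hx)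

end Pool.Agent.PCB
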