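import Mathlib

/-!
# Trinomial determinants

Every polynomial with integer coefficients is the determinant of a matrix with entries `0`, `± 1`, `± x_a`
and with at most three nonzero entries in every row.
-/

set_option autoImplicit false

open MvPolynomial Matrix

namespace Pool.Agent.PCB

/-- `p` is `0`, `1`, `-1`, `x_a` or `-x_a` -/
def Ent {n : ℕ} (p : MvPolynomial (Fin n) ℤ) : Prop :=
  p = 0 ∨ p = 1 ∨ p = -1 ∨ ∃ a, p = X a ∨ p = -X a

/-- at most three values of `r` are not zero -/
def Row3 {κ R : Type} [Zero R] (r : κ → R) : Prop :=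
  ∃ a b c : κ, ∀ j, r j ≠ 0 → j = a ∨ j = b ∨ j = c

/-- the trinomial matrices -/
def Trin {n : ℕ} {κ : Type} (A : Matrix κ κ (MvPolynomial (Fin n) ℤ)) : Prop :=
  (∀ i j, Ent (A i j)) ∧ ∀ i, Row3 (A i)

private theorem ent_neg {n : ℕ} {p : MvPolynomial (Fin n) ℤ} (h : Ent p) : Ent (-p) := by
  rcases h with rfl | rfl | rfl | ⟨a, rfl | rfl⟩
  · left; simp
  · right; right; left; rfl
  · right; left; simp
  · right; right; right; exact ⟨a, Or.inr rfl⟩
  · right; right; right; exact ⟨a, Or.inl (by simp)⟩

private theorem ent_zero {n : ℕ} : Ent (0 : MvPolynomial (Fin n) ℤ) := Or.inl rfl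

private theorem ent_one {n : ℕ} : Ent (1 : MvPolynomial (Fin n) ℤ) := Or.inr (Or.inl rfl)

/-- `p = u T⁻¹ v` with short rows -/
private structure Rep {n : ℕ} (p : MvPolynomial (Fin n) ℤ) (ι : Type) [Fintype ι] [DecidableEq ι] where
  T : Matrix ι ι (MvPolynomial (Fin n) ℤ)
  v : ι → MvPolynomial (Fin n) ℤ
  u : ι → MvPolynomial (Fin n) ℤ
  w : ι → MvPolynomial (Fin n) ℤ
  det : T.det = 1
  hT : T *ᵥ w = v
  hu : u ⬝ᵥ w = p
  eT : ∀ i j, Ent (T i j)
  ev : ∀ i, Ent (v i)
  eu : ∀ i, Ent (u i)
  row : ∀ i, Row3 (Sum.elim (T i) (fun _ : Unit => v i))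
  one : ∃ j₀, ∀ j, u j ≠ 0 → j = j₀

private def HasRep {n : ℕ} (p : MvPolynomial (Fin n) ℤ) : Prop :=
  ∃ (ι : Type) (_ : Fintype ι) (_ : DecidableEq ι), Nonempty (Rep p ι)

private theorem rep_one {n : ℕ} : HasRep (1 : MvPolynomial (Fin n) ℤ) := by
  refine ⟨Unit, inferInstance, inferInstance, ⟨⟨1, fun _ => 1, fun _ => 1, fun _ => 1, ?_, ?_, ?_, ?_,
    ?_, ?_, ?_, ?_⟩⟩⟩
  · simp
  · simp
  · simp [dotProduct]
  · intro i j
    simp only [Matrix.one_apply, if_true]
    exact ent_one
  · intro i; exact ent_one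
  · intro i; exact ent_one
  · intro i
    refine ⟨Sum.inl (), Sum.inr (), Sum.inr (), ?_⟩
    rintro (⟨⟩ | ⟨⟩) _
    · left; rfl
    · right; left; rfl
  · exact ⟨(), fun j _ => rfl⟩

private theorem rep_neg {n : ℕ} {p : MvPolynomial (Fin n) ℤ} (h : HasRep p) : HasRep (-p) := by
  obtain ⟨ι, h1, h2, ⟨R⟩⟩ := h
  refine ⟨ι, h1, h2, ⟨⟨R.T, R.v, fun i => -R.u i, R.w, R.det, R.hT, ?_, R.eT, R.ev,
    fun i => ent_neg (R.eu i), R.row, ?_⟩⟩⟩
  · have h := R.hu
    simp only [dotProduct] at h
    simp only [dotProduct, neg_mul, Finset.sum_neg_distrib, h]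
  · obtain ⟨j₀, h⟩ := R.one
    exact ⟨j₀, fun j hj => h j (by simpa using hj)⟩

private theorem rep_add {n : ℕ} {p q : MvPolynomial (Fin n) ℤ} (hp : HasRep p) (hq : HasRep q) :
    HasRep (p + q) := by
  obtain ⟨ι, h1, h2, ⟨R⟩⟩ := hp
  obtain ⟨κ, h3, h4, ⟨S⟩⟩ := hq
  refine ⟨(ι ⊕ κ) ⊕ Unit, inferInstance, inferInstance,
    ⟨⟨fromBlocks (fromBlocks R.T 0 0 S.T) 0
        (Matrix.of fun _ : Unit => Sum.elim (fun i => -R.u i) (fun i => -S.u i)) 1,
      Sum.elim (Sum.elim R.v S.v) (fun _ => 0),
      Sum.elim (fun _ => 0) (fun _ => 1),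
      Sum.elim (Sum.elim R.w S.w) (fun _ => p + q), ?_, ?_, ?_, ?_, ?_, ?_, ?_, ?_⟩⟩⟩
  · rw [det_fromBlocks_zero₁₂, det_fromBlocks_zero₁₂, R.det, S.det]
    simp
  · funext i
    rcases i with (i | i) | i
    · have h := congrFun R.hT i
      simpa [mulVec, dotProduct, Fintype.sum_sum_type] using h
    · have h := congrFun S.hT i
      simpa [mulVec, dotProduct, Fintype.sum_sum_type] using h
    · have h1 := R.hu
      have h2 := S.hu
      simp only [dotProduct] at h1 h2
      simp only [mulVec, dotProduct, Fintype.sum_sum_type, fromBlocks_apply₂₁, fromBlocks_apply₂₂,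
        Sum.elim_inl, Sum.elim_inr, of_apply, neg_mul, Finset.sum_neg_distrib, h1, h2]
      simp
      abel
  · simp [dotProduct, Fintype.sum_sum_type]
  · intro i j
    rcases i with (i | i) | i <;> rcases j with (j | j) | j
    · simpa using R.eT i j
    · simpa using ent_zero
    · simpa using ent_zero
    · simpa using ent_zero
    · simpa using S.eT i j
    · simpa using ent_zero
    · simpa using ent_neg (R.eu j)
    · simpa using ent_neg (S.eu j)
    · simpa using ent_one
  · intro i
    rcases i with (i | i) | i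
    · exact R.ev i
    · exact S.ev i
    · exact ent_zero
  · intro i
    rcases i with i | i
    · exact ent_zero
    · exact ent_one
  · intro i
    rcases i with (i | i) | i
    · obtain ⟨a, b, c, h⟩ := R.row i
      refine ⟨Sum.map (fun x => Sum.inl (Sum.inl x)) id a, Sum.map (fun x => Sum.inl (Sum.inl x)) id b,
        Sum.map (fun x => Sum.inl (Sum.inl x)) id c, ?_⟩
      rintro (((j | j) | j) | j) hj
      · rcases h (Sum.inl j) (by simpa using hj) with h | h | h
        · left; rw [← h]; rfl
        · right; left; rw [← h]; rfl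
        · right; right; rw [← h]; rfl
      · exact absurd (by simp) hj
      · exact absurd (by simp) hj
      · rcases h (Sum.inr j) (by simpa using hj) with h | h | h
        · left; rw [← h]; rfl
        · right; left; rw [← h]; rfl
        · right; right; rw [← h]; rfl
    · obtain ⟨a, b, c, h⟩ := S.row i
      refine ⟨Sum.map (fun x => Sum.inl (Sum.inr x)) id a, Sum.map (fun x => Sum.inl (Sum.inr x)) id b,
        Sum.map (fun x => Sum.inl (Sum.inr x)) id c, ?_⟩
      rintro (((j | j) | j) | j) hj
      · exact absurd (by simp) hj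
      · rcases h (Sum.inl j) (by simpa using hj) with h | h | h
        · left; rw [← h]; rfl
        · right; left; rw [← h]; rfl
        · right; right; rw [← h]; rfl
      · exact absurd (by simp) hj
      · rcases h (Sum.inr j) (by simpa using hj) with h | h | h
        · left; rw [← h]; rfl
        · right; left; rw [← h]; rfl
        · right; right; rw [← h]; rfl
    · obtain ⟨j₁, h1⟩ := R.one
      obtain ⟨j₂, h2⟩ := S.one
      refine ⟨Sum.inl (Sum.inl (Sum.inl j₁)), Sum.inl (Sum.inl (Sum.inr j₂)),
        Sum.inl (Sum.inr ()), ?_⟩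
      rintro (((j | j) | j) | j) hj
      · left
        rw [h1 j (by simpa using hj)]
      · right; left
        rw [h2 j (by simpa using hj)]
      · right; right; rfl
      · exact absurd (by simp) hj
  · refine ⟨Sum.inr (), ?_⟩
    rintro (j | j) hj
    · exact absurd (by simp) hj
    · rfl

private theorem rep_mul {n : ℕ} {p : MvPolynomial (Fin n) ℤ} (a : Fin n) (hp : HasRep p) :
    HasRep (p * X a) := by
  obtain ⟨ι, h1, h2, ⟨R⟩⟩ := hp
  refine ⟨ι ⊕ Unit, inferInstance, inferInstance,
    ⟨⟨fromBlocks R.T (Matrix.of fun i (_ : Unit) => R.v i) 0 1,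
      Sum.elim (fun _ => 0) (fun _ => -X a),
      Sum.elim R.u (fun _ => 0),
      Sum.elim (fun i => R.w i * X a) (fun _ => -X a), ?_, ?_, ?_, ?_, ?_, ?_, ?_, ?_⟩⟩⟩
  · rw [det_fromBlocks_zero₂₁, R.det]
    simp
  · funext i
    rcases i with i | i
    · have h := congrFun R.hT i
      simp only [mulVec, dotProduct] at h
      simp only [mulVec, dotProduct, Fintype.sum_sum_type, fromBlocks_apply₁₁, fromBlocks_apply₁₂,
        Sum.elim_inl, Sum.elim_inr, of_apply, ← mul_assoc, ← Finset.sum_mul, h]
      simp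
    · simp [mulVec, dotProduct, Fintype.sum_sum_type]
  · have h := R.hu
    simp only [dotProduct] at h
    simp only [dotProduct, Fintype.sum_sum_type, Sum.elim_inl, Sum.elim_inr, ← mul_assoc,
      ← Finset.sum_mul, h]
    simp
  · intro i j
    rcases i with i | i <;> rcases j with j | j
    · simpa using R.eT i j
    · simpa using R.ev i
    · simpa using ent_zero
    · simpa using ent_one
  · intro i
    rcases i with i | i
    · exact ent_zero
    · exact Or.inr (Or.inr (Or.inr ⟨a, Or.inr rfl⟩))
  · intro i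
    rcases i with i | i
    · exact R.eu i
    · exact ent_zero
  · intro i
    rcases i with i | i
    · obtain ⟨b, c, d, h⟩ := R.row i
      refine ⟨Sum.inl b, Sum.inl c, Sum.inl d, ?_⟩
      rintro ((j | j) | j) hj
      · rcases h (Sum.inl j) (by simpa using hj) with h | h | h
        · left; rw [h]
        · right; left; rw [h]
        · right; right; rw [h]
      · rcases h (Sum.inr j) (by simpa using hj) with h | h | h
        · left; rw [h]
        · right; left; rw [h]
        · right; right; rw [h]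
      · exact absurd (by simp) hj
    · refine ⟨Sum.inl (Sum.inr ()), Sum.inr (), Sum.inr (), ?_⟩
      rintro ((j | j) | j) hj
      · exact absurd (by simp) hj
      · left; rfl
      · right; left; rfl
  · obtain ⟨j₀, h⟩ := R.one
    refine ⟨Sum.inl j₀, ?_⟩
    rintro (j | j) hj
    · rw [h j (by simpa using hj)]
    · exact absurd (by simp) hj

private theorem rep_zero {n : ℕ} : HasRep (0 : MvPolynomial (Fin n) ℤ) := by
  have h := rep_add (rep_one (n := n)) (rep_neg rep_one)
  rwa [add_neg_cancel] at h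

private theorem rep_all {n : ℕ} (p : MvPolynomial (Fin n) ℤ) : HasRep p := by
  refine MvPolynomial.induction_on p ?_ (fun p q => rep_add) (fun p a => rep_mul a)
  intro c
  have hn : ∀ k : ℕ, HasRep (C (k : ℤ) : MvPolynomial (Fin n) ℤ) := by
    intro k
    induction k with
    | zero => simpa using rep_zero
    | succ k ih =>
      have h := rep_add ih rep_one
      simpa using h
  obtain ⟨k, rfl | rfl⟩ := Int.eq_nat_or_neg c
  · exact hn k
  · rw [map_neg]
    exact rep_neg (hn k)

/-- Every polynomial over `ℤ` is the determinant of a trinomial matrix. -/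
theorem tri (n : ℕ) (p : MvPolynomial (Fin n) ℤ) :
    ∃ (k : ℕ) (A : Matrix (Fin k) (Fin k) (MvPolynomial (Fin n) ℤ)), Trin A ∧ A.det = p := by
  obtain ⟨ι, h1, h2, ⟨R⟩⟩ := rep_all (-p)
  obtain ⟨B, hB⟩ : ∃ B : Matrix (ι ⊕ Unit) (ι ⊕ Unit) (MvPolynomial (Fin n) ℤ),
      B = fromBlocks R.T (Matrix.of fun i (_ : Unit) => R.v i)
        (Matrix.of fun (_ : Unit) i => R.u i) 0 := ⟨_, rfl⟩
  have hdet : B.det = p := by
    have h3 : B * fromBlocks 1 (Matrix.of fun i (_ : Unit) => -R.w i) 0 1 =
        fromBlocks R.T 0 (Matrix.of fun (_ : Unit) i => R.u i) (Matrix.of fun _ _ => p) := by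
      rw [hB, fromBlocks_multiply]
      congr 1
      · simp
      · ext i j
        have h := congrFun R.hT i
        simp only [mulVec, dotProduct] at h
        simp only [Matrix.add_apply, Matrix.mul_apply, of_apply, mul_neg, Finset.sum_neg_distrib, h]
        simp
      · simp
      · ext i j
        have h := R.hu
        simp only [dotProduct] at h
        simp only [Matrix.add_apply, Matrix.mul_apply, of_apply, mul_neg, Finset.sum_neg_distrib, h]
        simp
    have h4 := congrArg Matrix.det h3
    rw [det_mul, det_fromBlocks_zero₂₁, det_fromBlocks_zero₁₂, R.det] at h4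
    simpa using h4
  let e := Fintype.equivFin (ι ⊕ Unit)
  refine ⟨Fintype.card (ι ⊕ Unit), reindex e e B, ⟨?_, ?_⟩, ?_⟩
  · intro i j
    rw [reindex_apply, submatrix_apply, hB]
    rcases e.symm i with a | a <;> rcases e.symm j with b | b
    · exact R.eT a b
    · exact R.ev a
    · exact R.eu b
    · exact ent_zero
  · intro i
    have h3 : Row3 (B (e.symm i)) := by
      rw [hB]
      rcases e.symm i with a | a
      · obtain ⟨b, c, d, h⟩ := R.row a
        refine ⟨b, c, d, ?_⟩
        rintro (j | j) hj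
        · exact h (Sum.inl j) (by simpa using hj)
        · exact h (Sum.inr j) (by simpa using hj)
      · obtain ⟨j₀, h⟩ := R.one
        refine ⟨Sum.inl j₀, Sum.inl j₀, Sum.inl j₀, ?_⟩
        rintro (j | j) hj
        · left
          rw [h j (by simpa using hj)]
        · exact absurd (by simp) hj
    obtain ⟨b, c, d, h⟩ := h3
    refine ⟨e b, e c, e d, fun j hj => ?_⟩
    rw [reindex_apply, submatrix_apply] at hj
    rcases h (e.symm j) hj with h | h | h
    · left; rw [← h]; simp
    · right; left; rw [← h]; simp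
    · right; right; rw [← h]; simp
  · rw [det_reindex_self, hdet]

end Pool.Agent.PCB
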