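import Pool.Agent.PCB.Tri
import Pool.Agent.PWD.ZNL

/-!
# The volumes of the sets `S_A`
-/

set_option autoImplicit false

open MeasureTheory MvPolynomial

namespace Pool.Agent.PCB

/-- `S_A`: the pairs `(x, y)` with `|∑_j a_ij(x) y_j| ≤ 1` for all `i` -/
def body {n k : ℕ} (A : Matrix (Fin k) (Fin k) (MvPolynomial (Fin n) ℤ)) :
    Set ((Fin n → ℝ) × (Fin k → ℝ)) := {z | ∀ i, |∑ j, aeval z.1 (A i j) * z.2 j| ≤ 1}

theorem vol_cube {k : ℕ} (M : Matrix (Fin k) (Fin k) ℝ) (hM : M.det ≠ 0) :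
    volume {y : Fin k → ℝ | ∀ i, |∑ j, M i j * y j| ≤ 1} = ENNReal.ofReal (2 ^ k / |M.det|) := by
  have h1 : {y : Fin k → ℝ | ∀ i, |∑ j, M i j * y j| ≤ 1} =
      (Matrix.toLin' M) ⁻¹' (Set.Icc (fun _ => -1) (fun _ => 1)) := by
    ext y
    simp only [Set.mem_preimage, Set.mem_Icc, Pi.le_def, Matrix.toLin'_apply, Matrix.mulVec,
      dotProduct, ← forall_and, abs_le]
    rfl
  rw [h1, Measure.addHaar_preimage_linearMap volume (by rwa [LinearMap.det_toLin'])]
  rw [Real.volume_Icc_pi, LinearMap.det_toLin']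
  simp only [sub_neg_eq_add, Finset.prod_const, Finset.card_univ, Fintype.card_fin]
  rw [← ENNReal.ofReal_pow (by norm_num), ← ENNReal.ofReal_mul (abs_nonneg _)]
  congr 1
  rw [abs_inv]
  norm_num
  ring

theorem aeval_eq {n : ℕ} (x : Fin n → ℝ) (p : MvPolynomial (Fin n) ℤ) :
    aeval x p = eval x (map (Int.castRingHom ℝ) p) := by
  rw [eval_map]
  rfl

theorem map_ne {n : ℕ} {p : MvPolynomial (Fin n) ℤ} (hp : p ≠ 0) :
    map (Int.castRingHom ℝ) p ≠ 0 :=
  (map_ne_zero_iff _ (map_injective _ Int.cast_injective)).2 hp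

theorem cont_aeval {n : ℕ} (p : MvPolynomial (Fin n) ℤ) :
    Continuous fun x : Fin n → ℝ => aeval x p := by
  simp only [aeval_eq]
  exact continuous_eval _

theorem meas_body {n k : ℕ} (A : Matrix (Fin k) (Fin k) (MvPolynomial (Fin n) ℤ)) :
    MeasurableSet (body A) := by
  have h1 : body A = ⋂ i, {z : (Fin n → ℝ) × (Fin k → ℝ) | |∑ j, aeval z.1 (A i j) * z.2 j| ≤ 1} := by
    ext z
    simp [body]
  rw [h1]
  refine MeasurableSet.iInter fun i => IsClosed.measurableSet ?_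
  refine isClosed_le ?_ continuous_const
  refine continuous_abs.comp (continuous_finsetSum _ fun j _ => ?_)
  exact ((cont_aeval (A i j)).comp continuous_fst).mul ((continuous_apply j).comp continuous_snd)

/-- the volume of `S_A` -/
theorem vol_body {n k : ℕ} (A : Matrix (Fin k) (Fin k) (MvPolynomial (Fin n) ℤ)) (hA : A.det ≠ 0) :
    volume (body A) = ∫⁻ x : Fin n → ℝ, ENNReal.ofReal (2 ^ k / |aeval x A.det|) := by
  rw [Measure.volume_eq_prod, Measure.prod_apply (meas_body A)]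
  refine lintegral_congr_ae ?_
  filter_upwards [Pool.Agent.PWD.nul_fin n _ (map_ne hA)] with x hx
  rw [← aeval_eq] at hx
  have h1 : ((aeval x : MvPolynomial (Fin n) ℤ →ₐ[ℤ] ℝ).mapMatrix A).det = aeval x A.det :=
    (AlgHom.map_det _ _).symm
  have h2 := vol_cube ((aeval x : MvPolynomial (Fin n) ℤ →ₐ[ℤ] ℝ).mapMatrix A) (by rwa [h1])
  rw [h1] at h2
  exact h2

/-- denominators can be cleared -/
theorem clear {n : ℕ} (D : MvPolynomial (Fin n) ℚ) : ∃ (N : ℕ) (p : MvPolynomial (Fin n) ℤ),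
    0 < N ∧ ∀ x : Fin n → ℝ, aeval x p = (N : ℝ) * aeval x D := by
  induction D using MvPolynomial.induction_on with
  | C a =>
    refine ⟨a.den, C a.num, a.pos, fun x => ?_⟩
    rw [aeval_C, aeval_C]
    have h := Rat.mul_den_eq_num a
    have h2 : ((a * a.den : ℚ) : ℝ) = ((a.num : ℚ) : ℝ) := by rw [h]
    push_cast at h2
    simp only [eq_intCast, eq_ratCast]
    linarith
  | add p q hp hq =>
    obtain ⟨N, p', hN, hp'⟩ := hp
    obtain ⟨M, q', hM, hq'⟩ := hq
    refine ⟨N * M, C (M : ℤ) * p' + C (N : ℤ) * q', Nat.mul_pos hN hM, fun x => ?_⟩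
    rw [map_add, map_add, map_mul, map_mul, aeval_C, aeval_C, hp', hq']
    simp only [eq_intCast, Int.cast_natCast]
    push_cast
    ring
  | mul_X p i hp =>
    obtain ⟨N, p', hN, hp'⟩ := hp
    refine ⟨N, p' * X i, hN, fun x => ?_⟩
    rw [map_mul, map_mul, aeval_X, aeval_X, hp']
    ring

end Pool.Agent.PCB
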